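import Pool.Agent.H77.EA.Targets3

/-!
# Equivariant Alperin–McKay (MP_657073_al), third wave, module XR: characters of height zero of
direct products
-/

open scoped Classical ComplexConjugate

namespace Pool.Agent.H52.EA

open AMc AMe

/-- XR: characters of height zero of direct products -/
theorem xr (hXO : T_XO) (hXP : T_XP) (hXQ : T_XQ) (hA3 : T_A3) : T_XR := by
  intro ℓ _ 𝔪 h𝔪 hℓ G₁ G₂ _ _ _ _ D₁ D₂ χ₁ hχ₁ χ₂ hχ₂ hD₁ hD₂ c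
  obtain ⟨hP1, hP2, -⟩ := hXP G₁ G₂
  obtain ⟨hQ1, -, -⟩ := hXQ ℓ 𝔪 h𝔪 hℓ G₁ G₂ G₁ G₂ (MonoidHom.id G₁) (MonoidHom.id G₂)
  have hi₁ : D₁.index ≠ 0 := Subgroup.index_ne_zero_of_finite
  have hi₂ : D₂.index ≠ 0 := Subgroup.index_ne_zero_of_finite
  have hidx : padicValNat ℓ (D₁.prod D₂).index =
      padicValNat ℓ D₁.index + padicValNat ℓ D₂.index := by
    rw [Subgroup.index_prod, padicValNat.mul hi₁ hi₂]
  constructor
  · rintro ⟨hc, hs, d, hd, hv⟩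
    obtain ⟨a, ha, b, hb, rfl⟩ := hP2 c hc
    obtain ⟨hsa, hsb⟩ := (hQ1 χ₁ hχ₁ a ha χ₂ hχ₂ b hb).1 hs
    obtain ⟨da, hda, hda'⟩ := ((hA3 G₁).1 a ha).2
    obtain ⟨db, hdb, hdb'⟩ := ((hA3 G₂).1 b hb).2
    have h1 : (d : ℂ) = ((da * db : ℕ) : ℂ) := by
      rw [← hd, Nat.cast_mul, ← hda', ← hdb']
      simp [mx]
    have h2 : d = da * db := by exact_mod_cast h1
    have h3 := hXO ℓ 𝔪 h𝔪 hℓ G₁ D₁ χ₁ hχ₁ hD₁ a ha hsa da hda'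
    have h4 := hXO ℓ 𝔪 h𝔪 hℓ G₂ D₂ χ₂ hχ₂ hD₂ b hb hsb db hdb'
    rw [h2, padicValNat.mul hda.ne' hdb.ne', hidx] at hv
    exact ⟨a, ⟨ha, hsa, da, hda', by omega⟩, b, ⟨hb, hsb, db, hdb', by omega⟩, rfl⟩
  · rintro ⟨a, ⟨ha, hsa, da, hda', hva⟩, b, ⟨hb, hsb, db, hdb', hvb⟩, rfl⟩
    refine ⟨hP1 a ha b hb, (hQ1 χ₁ hχ₁ a ha χ₂ hχ₂ b hb).2 ⟨hsa, hsb⟩, da * db, ?_, ?_⟩
    · rw [Nat.cast_mul, ← hda', ← hdb']
      simp [mx]
    · obtain ⟨ea, hea, hea'⟩ := ((hA3 G₁).1 a ha).2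
      obtain ⟨eb, heb, heb'⟩ := ((hA3 G₂).1 b hb).2
      have h1 : ea = da := by
        have : (ea : ℂ) = (da : ℂ) := by rw [← hea', hda']
        exact_mod_cast this
      have h2 : eb = db := by
        have : (eb : ℂ) = (db : ℂ) := by rw [← heb', hdb']
        exact_mod_cast this
      subst h1 h2
      rw [padicValNat.mul hea.ne' heb.ne', hidx, hva, hvb]

end Pool.Agent.H52.EA
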